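import Mathlib
import Pool.Agent.Y570.LS.Cond

/-!
H2xSX (helper2, MP_0430e4_lc): the norms of the alternating sums, with better constants. The proofs
follow `Y570.LS.Step` and `Y570.LS.Bound`; powers of two are replaced by binomial coefficients.
-/

set_option autoImplicit false
set_option linter.unusedSectionVars false

namespace Pool.Agent.H2xSX

open Finset Pool.Agent.Y570 Pool.Agent.Y570.LS

section

variable {X : Type} [Fintype X] [DecidableEq X] {g : X → X → ℝ} {K Λ σ : ℝ}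

lemma one_le_choose {w r : ℕ} (hr : r ≤ w) : (1 : ℝ) ≤ (w.choose r : ℝ) := by
  exact_mod_cast Nat.choose_pos hr

lemma hR_sum2 (h : Finset X → ℝ) (w r : ℕ) (hr : r ≤ w) :
    ∑ R ∈ powersetCard r univ, n2 (w - r) (hR h R) ≤ (w.choose r : ℝ) * n2 w h := by
  have h1 := split w r hr (fun R M => h (R ∪ M) ^ 2)
  have h2 : ∑ R ∈ powersetCard r univ, n2 (w - r) (hR h R) =
      ∑ R ∈ powersetCard r univ, ∑ M ∈ powersetCard (w - r) univ,
        if Disjoint R M then h (R ∪ M) ^ 2 else 0 := by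
    refine Finset.sum_congr rfl fun R _ => Finset.sum_congr rfl fun M _ => ?_
    unfold hR
    by_cases hd : Disjoint R M
    · rw [if_pos hd, if_pos hd]
    · rw [if_neg hd, if_neg hd]
      ring
  rw [h2, ← h1]
  unfold n2
  rw [Finset.mul_sum]
  refine Finset.sum_le_sum fun L hL => ?_
  have hc := (Finset.mem_powersetCard.1 hL).2
  refine le_of_eq ?_
  calc ∑ R ∈ powersetCard r L, h (R ∪ L \ R) ^ 2 = ∑ _R ∈ powersetCard r L, h L ^ 2 := by
        refine Finset.sum_congr rfl fun R hR => ?_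
        rw [Finset.union_sdiff_of_subset (Finset.mem_powersetCard.1 hR).1]
    _ = (w.choose r : ℝ) * h L ^ 2 := by
        rw [Finset.sum_const, Finset.card_powersetCard, hc, nsmul_eq_mul]

/-- the first part of the recursion -/
lemma partB2 (hk : KK g K Λ σ) (u w r : ℕ) (hr : r ≤ w) (N : ℝ) (hN0 : 0 ≤ N)
    (hN : BB g u (w - r) N) (f h : Finset X → ℝ) :
    |∑ a, ∑ R ∈ powersetCard r univ, pe g a R * ∑ J ∈ powersetCard u univ,
      ∑ M ∈ powersetCard (w - r) univ, fa f a J * (hR h R M * (pg g a M - 1)) * CC g J M| ≤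
    N * (K ^ w * (w - r : ℕ) * σ ^ (r + 1)) * (√((u : ℝ) + 1) * √(n2 (u + 1) f)) *
      ((w.choose r : ℝ) * √(n2 w h)) := by
  have hK0 : 0 ≤ K := by linarith [hk.K1]
  have hσ := hk.hσ
  obtain ⟨A, hA⟩ : ∃ A : X → ℝ, A = fun a => n2 u (fa f a) := ⟨_, rfl⟩
  obtain ⟨B, hB⟩ : ∃ B : X → Finset X → ℝ,
      B = fun a R => n2 (w - r) (fun M => hR h R M * (pg g a M - 1)) := ⟨_, rfl⟩
  have hA0 : ∀ a, 0 ≤ A a := fun a => by rw [hA]; exact n2_nonneg _ _
  have hB0 : ∀ a R, 0 ≤ B a R := fun a R => by rw [hB]; exact n2_nonneg _ _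
  have h1 : |∑ a, ∑ R ∈ powersetCard r univ, pe g a R * ∑ J ∈ powersetCard u univ,
      ∑ M ∈ powersetCard (w - r) univ, fa f a J * (hR h R M * (pg g a M - 1)) * CC g J M| ≤
      N * ∑ a, ∑ R ∈ powersetCard r univ, √(pe g a R ^ 2 * A a) * √(B a R) := by
    refine (Finset.abs_sum_le_sum_abs _ _).trans ?_
    rw [Finset.mul_sum]
    refine Finset.sum_le_sum fun a _ => ?_
    refine (Finset.abs_sum_le_sum_abs _ _).trans ?_
    rw [Finset.mul_sum]
    refine Finset.sum_le_sum fun R _ => ?_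
    rw [abs_mul]
    have e1 := hN (fa f a) (fun M => hR h R M * (pg g a M - 1))
    have e2 : √(pe g a R ^ 2 * A a) = |pe g a R| * √(A a) := by
      rw [Real.sqrt_mul (sq_nonneg _), Real.sqrt_sq_eq_abs]
    rw [e2, hA, hB]
    calc |pe g a R| * |∑ J ∈ powersetCard u univ,
          ∑ M ∈ powersetCard (w - r) univ, fa f a J * (hR h R M * (pg g a M - 1)) * CC g J M|
        ≤ |pe g a R| * (N * (√(n2 u (fa f a)) *
          √(n2 (w - r) fun M => hR h R M * (pg g a M - 1)))) :=
          mul_le_mul_of_nonneg_left e1 (abs_nonneg _)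
      _ = _ := by ring
  have h2 : ∑ a, ∑ R ∈ powersetCard r univ, √(pe g a R ^ 2 * A a) * √(B a R) ≤
      √(∑ a, ∑ R ∈ powersetCard r univ, pe g a R ^ 2 * A a) *
        √(∑ a, ∑ R ∈ powersetCard r univ, B a R) := by
    rw [← Finset.sum_product', ← Finset.sum_product', ← Finset.sum_product']
    exact Real.sum_sqrt_mul_sqrt_le _ (fun p => mul_nonneg (sq_nonneg _) (hA0 _))
      (fun p => hB0 _ _)
  have h3 : ∑ a, ∑ R ∈ powersetCard r univ, pe g a R ^ 2 * A a ≤
      (σ ^ r) ^ 2 * (((u : ℝ) + 1) * n2 (u + 1) f) := by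
    rw [← fa_sum, Finset.mul_sum]
    refine Finset.sum_le_sum fun a _ => ?_
    rw [← Finset.sum_mul, hA]
    exact mul_le_mul_of_nonneg_right (pe_row hk a r) (n2_nonneg _ _)
  have h4 : ∑ a, ∑ R ∈ powersetCard r univ, B a R ≤
      (K ^ w * (w - r : ℕ) * σ) ^ 2 * ((w.choose r : ℝ) ^ 2 * n2 w h) := by
    rw [Finset.sum_comm]
    have e1 : ∀ R ∈ powersetCard r (univ : Finset X), ∑ a, B a R ≤
        (K ^ w * (w - r : ℕ) * σ) ^ 2 * n2 (w - r) (hR h R) := by
      intro R _
      rw [hB]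
      unfold n2
      rw [Finset.sum_comm, Finset.mul_sum]
      refine Finset.sum_le_sum fun M hM => ?_
      have hc := (Finset.mem_powersetCard.1 hM).2
      simp_rw [mul_pow]
      rw [← Finset.mul_sum, mul_comm (hR h R M ^ 2)]
      refine mul_le_mul_of_nonneg_right ?_ (sq_nonneg _)
      refine (pg_col hk M).trans ?_
      rw [hc, ← mul_pow, ← mul_pow]
      refine pow_le_pow_left₀ (by positivity) ?_ 2
      refine mul_le_mul_of_nonneg_right (mul_le_mul_of_nonneg_right ?_ (Nat.cast_nonneg _)) hσ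
      exact pow_le_pow_right₀ hk.K1 (Nat.sub_le w r)
    refine (Finset.sum_le_sum e1).trans ?_
    rw [← Finset.mul_sum]
    refine mul_le_mul_of_nonneg_left ?_ (sq_nonneg _)
    refine (hR_sum2 h w r hr).trans ?_
    refine mul_le_mul_of_nonneg_right ?_ (n2_nonneg _ _)
    have := one_le_choose hr
    nlinarith
  have h5 : √(∑ a, ∑ R ∈ powersetCard r univ, pe g a R ^ 2 * A a) ≤
      σ ^ r * (√((u : ℝ) + 1) * √(n2 (u + 1) f)) := by
    refine (Real.sqrt_le_sqrt h3).trans ?_
    rw [Real.sqrt_mul (sq_nonneg _), Real.sqrt_sq (pow_nonneg hσ _),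
      Real.sqrt_mul (by positivity)]
  have h6 : √(∑ a, ∑ R ∈ powersetCard r univ, B a R) ≤
      (K ^ w * (w - r : ℕ) * σ) * ((w.choose r : ℝ) * √(n2 w h)) := by
    refine (Real.sqrt_le_sqrt h4).trans ?_
    rw [Real.sqrt_mul (sq_nonneg _), Real.sqrt_sq (by positivity),
      Real.sqrt_mul (sq_nonneg _), Real.sqrt_sq (by positivity)]
  have h7 := mul_le_mul h5 h6 (Real.sqrt_nonneg _) (by positivity)
  calc _ ≤ N * ∑ a, ∑ R ∈ powersetCard r univ, √(pe g a R ^ 2 * A a) * √(B a R) := h1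
    _ ≤ N * (σ ^ r * (√((u : ℝ) + 1) * √(n2 (u + 1) f)) *
        ((K ^ w * (w - r : ℕ) * σ) * ((w.choose r : ℝ) * √(n2 w h)))) :=
        mul_le_mul_of_nonneg_left (h2.trans h7) hN0
    _ = _ := by ring

/-- the second part of the recursion -/
lemma partA2 (hk : KK g K Λ σ) (u w r : ℕ) (hr : r + 1 ≤ w) (N : ℝ) (hN0 : 0 ≤ N)
    (hN : BB g u (w - (r + 1)) N) (f h : Finset X → ℝ) :
    |∑ a, ∑ R ∈ powersetCard (r + 1) univ, pe g a R * ∑ J ∈ powersetCard u univ,
      ∑ M ∈ powersetCard (w - (r + 1)) univ, fa f a J * hR h R M * CC g J M| ≤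
    N * (Λ * σ ^ r) * (√((u : ℝ) + 1) * √(n2 (u + 1) f)) *
      ((w.choose (r + 1) : ℝ) * √(n2 w h)) := by
  have hσ := hk.hσ
  have hΛ := hk.hΛ
  obtain ⟨F, hF⟩ : ∃ F : Finset X → X → Finset X → ℝ, F = fun R a J => pe g a R * fa f a J :=
    ⟨_, rfl⟩
  obtain ⟨H, hH⟩ : ∃ H : Finset X → X → Finset X → ℝ,
      H = fun R c M => if c ∈ R then 0 else hR h (insert c R) M := ⟨_, rfl⟩
  obtain ⟨Φ, hΦ⟩ : ∃ Φ : Finset X → ℝ, Φ = fun R => ∑ a, pe g a R * ∑ J ∈ powersetCard u univ,
      ∑ M ∈ powersetCard (w - (r + 1)) univ, fa f a J * hR h R M * CC g J M := ⟨_, rfl⟩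
  have h0 : ∑ a, ∑ R ∈ powersetCard (r + 1) univ, pe g a R * ∑ J ∈ powersetCard u univ,
      ∑ M ∈ powersetCard (w - (r + 1)) univ, fa f a J * hR h R M * CC g J M =
      ∑ R ∈ powersetCard (r + 1) univ, Φ R := by
    rw [Finset.sum_comm, hΦ]
  have h1 : ((r : ℝ) + 1) * ∑ R ∈ powersetCard (r + 1) univ, Φ R =
      ∑ R ∈ powersetCard r univ, ∑ a, ∑ c, (g a c - 1) * ∑ J ∈ powersetCard u univ,
      ∑ M ∈ powersetCard (w - (r + 1)) univ, F R a J * H R c M * CC g J M := by
    rw [peel' r Φ, Finset.sum_comm]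
    refine Finset.sum_congr rfl fun R _ => ?_
    rw [Finset.sum_comm (s := (univ : Finset X))]
    refine Finset.sum_congr rfl fun c _ => ?_
    by_cases hc : c ∈ R
    · rw [if_pos hc]
      symm
      refine Finset.sum_eq_zero fun a _ => ?_
      have : ∀ J M : Finset X, F R a J * H R c M * CC g J M = 0 := by
        intro J M
        rw [hH]
        simp only
        rw [if_pos hc]
        ring
      simp [this]
    · rw [if_neg hc, hΦ]
      refine Finset.sum_congr rfl fun a _ => ?_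
      have e1 : pe g a (insert c R) = (g a c - 1) * pe g a R := by
        unfold pe
        rw [Finset.prod_insert hc]
      rw [e1, mul_assoc]
      congr 1
      rw [Finset.mul_sum]
      refine Finset.sum_congr rfl fun J _ => ?_
      rw [Finset.mul_sum]
      refine Finset.sum_congr rfl fun M _ => ?_
      rw [hF, hH]
      simp only
      rw [if_neg hc]
      ring
  have h2 : ∀ R ∈ powersetCard r (univ : Finset X),
      |∑ a, ∑ c, (g a c - 1) * ∑ J ∈ powersetCard u univ,
      ∑ M ∈ powersetCard (w - (r + 1)) univ, F R a J * H R c M * CC g J M| ≤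
      Λ * N * (√(∑ a, ∑ J ∈ powersetCard u univ, F R a J ^ 2) *
        √(∑ c, ∑ M ∈ powersetCard (w - (r + 1)) univ, H R c M ^ 2)) := by
    intro R _
    exact spec_vec hΛ hk.spec (powersetCard u univ) (powersetCard (w - (r + 1)) univ)
      (fun J M => CC g J M) N hN0 hN (F R) (H R)
  have h3 : ∑ R ∈ powersetCard r univ, ∑ a, ∑ J ∈ powersetCard u univ, F R a J ^ 2 ≤
      (σ ^ r) ^ 2 * (((u : ℝ) + 1) * n2 (u + 1) f) := by
    rw [← fa_sum, Finset.mul_sum, Finset.sum_comm]
    refine Finset.sum_le_sum fun a _ => ?_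
    have e1 : ∑ R ∈ powersetCard r univ, ∑ J ∈ powersetCard u univ, F R a J ^ 2 =
        (∑ R ∈ powersetCard r univ, pe g a R ^ 2) * n2 u (fa f a) := by
      unfold n2
      rw [Finset.sum_mul_sum]
      refine Finset.sum_congr rfl fun R _ => Finset.sum_congr rfl fun J _ => ?_
      rw [hF]
      ring
    rw [e1]
    exact mul_le_mul_of_nonneg_right (pe_row hk a r) (n2_nonneg _ _)
  have h4 : ∑ R ∈ powersetCard r univ, ∑ c, ∑ M ∈ powersetCard (w - (r + 1)) univ, H R c M ^ 2 ≤
      ((r : ℝ) + 1) * ((w.choose (r + 1) : ℝ) * n2 w h) := by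
    have e1 := peel' r (fun R : Finset X => n2 (w - (r + 1)) (hR h R))
    have e2 : ∑ R ∈ powersetCard r univ, ∑ c, ∑ M ∈ powersetCard (w - (r + 1)) univ,
        H R c M ^ 2 = ∑ a, ∑ J ∈ powersetCard r univ,
          if a ∈ J then 0 else n2 (w - (r + 1)) (hR h (insert a J)) := by
      rw [Finset.sum_comm]
      refine Finset.sum_congr rfl fun c _ => Finset.sum_congr rfl fun R _ => ?_
      rw [hH]
      by_cases hc : c ∈ R
      · simp [hc]
      · simp only [hc, if_false]
        rfl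
    rw [e2, ← e1]
    exact mul_le_mul_of_nonneg_left (hR_sum2 h w (r + 1) hr) (by positivity)
  have h5 : ((r : ℝ) + 1) * |∑ R ∈ powersetCard (r + 1) univ, Φ R| ≤
      Λ * N * (σ ^ r * (√((u : ℝ) + 1) * √(n2 (u + 1) f)) *
        (√((r : ℝ) + 1) * (√(w.choose (r + 1) : ℝ) * √(n2 w h)))) := by
    have e1 : ((r : ℝ) + 1) * |∑ R ∈ powersetCard (r + 1) univ, Φ R| =
        |((r : ℝ) + 1) * ∑ R ∈ powersetCard (r + 1) univ, Φ R| := by
      rw [abs_mul, abs_of_nonneg (by positivity : (0 : ℝ) ≤ (r : ℝ) + 1)]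
    rw [e1, h1]
    refine (Finset.abs_sum_le_sum_abs _ _).trans ((Finset.sum_le_sum h2).trans ?_)
    rw [← Finset.mul_sum]
    refine mul_le_mul_of_nonneg_left ?_ (mul_nonneg hΛ hN0)
    refine (Real.sum_sqrt_mul_sqrt_le _
      (fun R => Finset.sum_nonneg fun a _ => Finset.sum_nonneg fun J _ => sq_nonneg _)
      (fun R => Finset.sum_nonneg fun a _ => Finset.sum_nonneg fun J _ => sq_nonneg _)).trans ?_
    refine mul_le_mul ?_ ?_ (Real.sqrt_nonneg _) (by positivity)
    · refine (Real.sqrt_le_sqrt h3).trans ?_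
      rw [Real.sqrt_mul (sq_nonneg _), Real.sqrt_sq (pow_nonneg hσ _),
        Real.sqrt_mul (by positivity)]
    · refine (Real.sqrt_le_sqrt h4).trans ?_
      rw [Real.sqrt_mul (by positivity), Real.sqrt_mul (by positivity)]
  have h6 : √((r : ℝ) + 1) ≤ (r : ℝ) + 1 := by
    rw [Real.sqrt_le_left (by positivity)]
    have : (0 : ℝ) ≤ r := Nat.cast_nonneg r
    nlinarith
  have h7 : √(w.choose (r + 1) : ℝ) ≤ (w.choose (r + 1) : ℝ) := by
    rw [Real.sqrt_le_left (by positivity)]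
    have := one_le_choose hr
    nlinarith
  rw [h0]
  have h8 : Λ * N * (σ ^ r * (√((u : ℝ) + 1) * √(n2 (u + 1) f)) *
        (√((r : ℝ) + 1) * (√(w.choose (r + 1) : ℝ) * √(n2 w h)))) ≤
      ((r : ℝ) + 1) * (N * (Λ * σ ^ r) * (√((u : ℝ) + 1) * √(n2 (u + 1) f)) *
        ((w.choose (r + 1) : ℝ) * √(n2 w h))) := by
    calc Λ * N * (σ ^ r * (√((u : ℝ) + 1) * √(n2 (u + 1) f)) *
        (√((r : ℝ) + 1) * (√(w.choose (r + 1) : ℝ) * √(n2 w h))))
        ≤ Λ * N * (σ ^ r * (√((u : ℝ) + 1) * √(n2 (u + 1) f)) *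
        (((r : ℝ) + 1) * ((w.choose (r + 1) : ℝ) * √(n2 w h)))) := by
          refine mul_le_mul_of_nonneg_left ?_ (mul_nonneg hΛ hN0)
          refine mul_le_mul_of_nonneg_left ?_ (by positivity)
          refine mul_le_mul h6 ?_ (by positivity) (by positivity)
          exact mul_le_mul_of_nonneg_right h7 (Real.sqrt_nonneg _)
      _ = _ := by ring
  have h9 : (0 : ℝ) < (r : ℝ) + 1 := by positivity
  exact le_of_mul_le_mul_left (h5.trans h8) h9

/-- the bound of the induction -/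
noncomputable def NB2 (K Λ σ : ℝ) (w : ℕ) (N : ℕ → ℝ) : ℝ :=
  ∑ r ∈ range (w + 1), (w.choose r : ℝ) * (N (w - r) * (K ^ w * (w - r : ℕ) * σ ^ (r + 1)) +
    if r = 0 then 0 else N (w - r) * (Λ * σ ^ (r - 1)))

/-- the step of the induction -/
theorem step2 (hk : KK g K Λ σ) (u w : ℕ) (N : ℕ → ℝ) (hN0 : ∀ r, 0 ≤ N r)
    (hN : ∀ w' ≤ w, BB g u w' (N w')) : BB g (u + 1) w (NB2 K Λ σ w N) := by
  have hK0 : 0 ≤ K := by linarith [hk.K1]
  have hσ := hk.hσ
  have hΛ := hk.hΛ
  intro f h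
  have hu : (0 : ℝ) < (u : ℝ) + 1 := by positivity
  have h1 := form_rec (g := g) u w f h
  obtain ⟨S, hS⟩ : ∃ S : ℝ, S = ∑ J ∈ powersetCard (u + 1) univ, ∑ L ∈ powersetCard w univ,
      f J * h L * CC g J L := ⟨_, rfl⟩
  rw [← hS] at h1 ⊢
  have h2 : ((u : ℝ) + 1) * |S| ≤ NB2 K Λ σ w N *
      ((√((u : ℝ) + 1) * √(n2 (u + 1) f)) * √(n2 w h)) := by
    have e1 : ((u : ℝ) + 1) * |S| = |((u : ℝ) + 1) * S| := by
      rw [abs_mul, abs_of_pos hu]
    rw [e1, h1]
    refine (Finset.abs_sum_le_sum_abs _ _).trans ?_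
    unfold NB2
    rw [Finset.sum_mul]
    refine Finset.sum_le_sum fun r hr => ?_
    have hr' : r ≤ w := by
      have := Finset.mem_range.1 hr
      omega
    have e2 := partB2 hk u w r hr' (N (w - r)) (hN0 _) (hN _ (Nat.sub_le w r)) f h
    by_cases hr0 : r = 0
    · rw [if_pos hr0, if_pos hr0, add_zero, add_zero]
      refine e2.trans (le_of_eq ?_)
      ring
    · rw [if_neg hr0, if_neg hr0]
      obtain ⟨q, rfl⟩ : ∃ q, r = q + 1 := ⟨r - 1, by omega⟩
      have e3 := partA2 hk u w q hr' (N (w - (q + 1))) (hN0 _) (hN _ (Nat.sub_le w _)) f h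
      refine (abs_add_le _ _).trans ((add_le_add e2 e3).trans (le_of_eq ?_))
      rw [Nat.add_sub_cancel]
      ring
  have h3 : √((u : ℝ) + 1) ≤ (u : ℝ) + 1 := by
    rw [Real.sqrt_le_left hu.le]
    have : (0 : ℝ) ≤ u := Nat.cast_nonneg u
    nlinarith
  have hNB : 0 ≤ NB2 K Λ σ w N := by
    unfold NB2
    refine Finset.sum_nonneg fun r _ => mul_nonneg (Nat.cast_nonneg _) ?_
    refine add_nonneg (mul_nonneg (hN0 _) (by positivity)) ?_
    by_cases hr0 : r = 0
    · rw [if_pos hr0]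
    · rw [if_neg hr0]
      exact mul_nonneg (hN0 _) (by positivity)
  have h4 : NB2 K Λ σ w N * ((√((u : ℝ) + 1) * √(n2 (u + 1) f)) * √(n2 w h)) ≤
      ((u : ℝ) + 1) * (NB2 K Λ σ w N * (√(n2 (u + 1) f) * √(n2 w h))) := by
    calc NB2 K Λ σ w N * ((√((u : ℝ) + 1) * √(n2 (u + 1) f)) * √(n2 w h))
        ≤ NB2 K Λ σ w N * ((((u : ℝ) + 1) * √(n2 (u + 1) f)) * √(n2 w h)) := by
          refine mul_le_mul_of_nonneg_left ?_ hNB
          exact mul_le_mul_of_nonneg_right (mul_le_mul_of_nonneg_right h3 (Real.sqrt_nonneg _))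
            (Real.sqrt_nonneg _)
      _ = _ := by ring
  exact le_of_mul_le_mul_left (h2.trans h4) hu

/-- the bounds -/
noncomputable def Nuw2 (K Λ σ : ℝ) (t u w : ℕ) : ℝ :=
  if w = 0 then 0 else (K ^ t * t + 1) ^ u * (u : ℝ) ^ w * Λ * σ ^ ((u - 1) + (w - 1))

theorem BB_all2 (hk : KK g K Λ σ) (hs : Λ ≤ σ ^ 2) (t u : ℕ) :
    ∀ w ≤ t, BB g (u + 1) w (Nuw2 K Λ σ t (u + 1) w) := by
  have hK := hk.K1
  have hK0 : 0 ≤ K := by linarith
  have hσ := hk.hσ
  have hΛ := hk.hΛ
  obtain ⟨a, ha⟩ : ∃ a : ℝ, a = K ^ t * t + 1 := ⟨_, rfl⟩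
  have ha1 : 1 ≤ a := by
    have : (0 : ℝ) ≤ K ^ t * t := by positivity
    linarith
  have ha0 : 0 < a := by linarith
  induction u with
  | zero =>
    intro w hw
    rcases Nat.eq_zero_or_pos w with h0 | h0
    · subst h0
      unfold Nuw2
      rw [if_pos rfl]
      exact BB_right g le_rfl
    · have h1 := step2 hk 0 w (fun r => if r = 0 then 1 else 0)
        (fun r => by split_ifs <;> norm_num) (fun w' _ => by
          by_cases h2 : w' = 0
          · rw [if_pos h2, h2]
            exact BB_zero g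
          · rw [if_neg h2]
            exact BB_left g (Nat.pos_of_ne_zero h2))
      refine h1.mono ?_
      unfold NB2 Nuw2
      rw [if_neg h0.ne', Finset.sum_eq_single_of_mem w (Finset.mem_range.2 (Nat.lt_succ_self w))]
      · beta_reduce
        rw [Nat.sub_self, if_pos rfl, if_neg h0.ne', ← ha, Nat.choose_self]
        have e3 : 0 ≤ Λ * σ ^ (w - 1) := by positivity
        calc ((1 : ℕ) : ℝ) * (1 * (K ^ w * ((0 : ℕ) : ℝ) * σ ^ (w + 1)) + 1 * (Λ * σ ^ (w - 1)))
            = 1 * (Λ * σ ^ (w - 1)) := by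
              push_cast
              ring
          _ ≤ a * (Λ * σ ^ (w - 1)) := mul_le_mul_of_nonneg_right ha1 e3
          _ = _ := by
              rw [zero_add, pow_one, Nat.sub_self, zero_add]
              push_cast
              rw [one_pow]
              ring
      · intro r hr hrw
        have := Finset.mem_range.1 hr
        have h3 : w - r ≠ 0 := by omega
        beta_reduce
        rw [if_neg h3]
        simp
  | succ u ih =>
    intro w hw
    rcases Nat.eq_zero_or_pos w with h0 | h0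
    · subst h0
      unfold Nuw2
      rw [if_pos rfl]
      exact BB_right g (by omega)
    · have h1 := step2 hk (u + 1) w (fun r => Nuw2 K Λ σ t (u + 1) r)
        (fun r => by
          unfold Nuw2
          split_ifs
          · exact le_rfl
          · positivity) (fun w' hw' => ih w' (hw'.trans hw))
      refine h1.mono ?_
      have e1 : ∀ r ∈ range (w + 1), (w.choose r : ℝ) * (Nuw2 K Λ σ t (u + 1) (w - r) *
          (K ^ w * (w - r : ℕ) * σ ^ (r + 1)) +
          if r = 0 then 0 else Nuw2 K Λ σ t (u + 1) (w - r) * (Λ * σ ^ (r - 1))) ≤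
          (1 ^ r * ((u : ℝ) + 1) ^ (w - r) * (w.choose r : ℝ)) *
            (a ^ (u + 1) * Λ * σ ^ ((u + 1) + (w - 1)) * a) := by
        intro r hr
        have hr' := Finset.mem_range.1 hr
        obtain ⟨P, hPd⟩ : ∃ P : ℝ, P = a ^ (u + 1) * ((u : ℝ) + 1) ^ (w - r) * Λ *
          σ ^ ((u + 1) + (w - 1)) := ⟨_, rfl⟩
        have hP : 0 ≤ P := by
          rw [hPd]
          positivity
        have hcast : (((u + 1 : ℕ)) : ℝ) = (u : ℝ) + 1 := by push_cast; ring
        have hgoal : (1 ^ r * ((u : ℝ) + 1) ^ (w - r) * (w.choose r : ℝ)) *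
            (a ^ (u + 1) * Λ * σ ^ ((u + 1) + (w - 1)) * a) = (w.choose r : ℝ) * (P * a) := by
          rw [hPd, one_pow]
          ring
        rw [hgoal]
        refine mul_le_mul_of_nonneg_left ?_ (Nat.cast_nonneg _)
        by_cases h2 : w - r = 0
        · rw [h2]
          unfold Nuw2
          rw [if_pos rfl, zero_mul, zero_add, zero_mul, ite_self]
          positivity
        · have hN : Nuw2 K Λ σ t (u + 1) (w - r) = a ^ (u + 1) * ((u : ℝ) + 1) ^ (w - r) * Λ *
              σ ^ ((u + 1 - 1) + (w - r - 1)) := by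
            unfold Nuw2
            rw [if_neg h2, ← ha, hcast]
          have hN0 : 0 ≤ Nuw2 K Λ σ t (u + 1) (w - r) := by
            rw [hN]
            positivity
          have e2 : Nuw2 K Λ σ t (u + 1) (w - r) * σ ^ (r + 1) = P := by
            rw [hN, hPd, mul_assoc, ← pow_add]
            congr 2
            omega
          have e3 : Nuw2 K Λ σ t (u + 1) (w - r) * (K ^ w * (w - r : ℕ) * σ ^ (r + 1)) ≤
              P * (K ^ t * t) := by
            calc Nuw2 K Λ σ t (u + 1) (w - r) * (K ^ w * (w - r : ℕ) * σ ^ (r + 1))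
                = (Nuw2 K Λ σ t (u + 1) (w - r) * σ ^ (r + 1)) * (K ^ w * (w - r : ℕ)) := by ring
              _ = P * (K ^ w * (w - r : ℕ)) := by rw [e2]
              _ ≤ _ := by
                  refine mul_le_mul_of_nonneg_left ?_ hP
                  refine mul_le_mul (pow_le_pow_right₀ hK hw) ?_ (Nat.cast_nonneg _)
                    (by positivity)
                  have : w - r ≤ t := by omega
                  exact_mod_cast this
          have e4 : (if r = 0 then 0 else Nuw2 K Λ σ t (u + 1) (w - r) * (Λ * σ ^ (r - 1))) ≤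
              P := by
            by_cases h3 : r = 0
            · rw [if_pos h3]
              exact hP
            · rw [if_neg h3, ← e2]
              refine mul_le_mul_of_nonneg_left ?_ hN0
              obtain ⟨q, rfl⟩ : ∃ q, r = q + 1 := ⟨r - 1, by omega⟩
              rw [Nat.add_sub_cancel]
              calc Λ * σ ^ q ≤ σ ^ 2 * σ ^ q := mul_le_mul_of_nonneg_right hs (by positivity)
                _ = σ ^ (q + 1 + 1) := by ring
          calc _ ≤ P * (K ^ t * t) + P := add_le_add e3 e4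
            _ = P * a := by rw [ha]; ring
      unfold NB2
      refine (Finset.sum_le_sum e1).trans (le_of_eq ?_)
      rw [← Finset.sum_mul, ← add_pow 1 ((u : ℝ) + 1) w]
      unfold Nuw2
      rw [if_neg h0.ne', ← ha, pow_succ a (u + 1), Nat.add_sub_cancel]
      push_cast
      ring

end

end Pool.Agent.H2xSX
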