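import Mathlib
import Pool.Agent.H2xSX.Step2

/-!
H2xSX (helper2, MP_0430e4_lc): the moment matrices of the product ansatz, with better constants. The
proofs follow `Y570.LS.Psd`.
-/

set_option autoImplicit false
set_option linter.unusedSectionVars false

namespace Pool.Agent.H2xSX

open Finset Pool.Agent.Y570 Pool.Agent.Y570.LS

section

variable {X : Type} [Fintype X] [DecidableEq X] {g : X → X → ℝ} {K Λ σ ρ : ℝ}
variable {Y : Finset X → ℝ} {t : ℕ} {B : ℝ}

/-- the form of a link -/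
lemma form_link2 (hk : KK g K Λ σ) (hΛσ : Λ ≤ σ ^ 2) (hρ : 0 < ρ) (t : ℕ) (η : ℝ)
    (hη : ∀ u w : ℕ, 1 ≤ u → u ≤ t → 1 ≤ w → w ≤ t → Nuw2 K Λ σ t u w * √ρ ^ (u + w) ≤ η)
    (A : Finset X → ℝ) (hA : ∀ J, t < J.card → A J = 0) :
    |∑ J, ∑ L, A J * A L * CC g J L - A ∅ ^ 2| ≤
      η * (t * ∑ u ∈ range t, n2 (u + 1) A / ρ ^ (u + 1)) := by
  have hs : 0 < √ρ := Real.sqrt_pos.2 hρ
  obtain ⟨S, hS⟩ : ∃ S : ℕ → ℕ → ℝ, S = fun u w => ∑ J ∈ powersetCard u univ,
      ∑ L ∈ powersetCard w univ, A J * A L * CC g J L := ⟨_, rfl⟩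
  obtain ⟨x, hx⟩ : ∃ x : ℕ → ℝ, x = fun u => √(n2 u A) / √ρ ^ u := ⟨_, rfl⟩
  have hx0 : ∀ u, 0 ≤ x u := fun u => by
    rw [hx]
    exact div_nonneg (Real.sqrt_nonneg _) (pow_nonneg hs.le _)
  have h1 : ∑ J, ∑ L, A J * A L * CC g J L =
      ∑ u ∈ range (t + 1), ∑ w ∈ range (t + 1), S u w := by
    rw [sum_card t (fun J => ∑ L, A J * A L * CC g J L)]
    · refine Finset.sum_congr rfl fun u _ => ?_
      rw [hS, Finset.sum_comm (s := range (t + 1))]
      refine Finset.sum_congr rfl fun J _ => ?_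
      rw [sum_card t (fun L => A J * A L * CC g J L)]
      intro L hL
      rw [hA L hL]
      ring
    · intro J hJ
      refine Finset.sum_eq_zero fun L _ => ?_
      rw [hA J hJ]
      ring
  have h2 : S 0 0 = A ∅ ^ 2 := by
    rw [hS]
    simp only
    rw [Finset.powersetCard_zero, Finset.sum_singleton, Finset.sum_singleton, CC_empty_left,
      if_pos rfl]
    ring
  have h3 : ∀ w, 1 ≤ w → S 0 w = 0 := by
    intro w hw
    have := BB_left g hw A A
    rw [zero_mul] at this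
    rw [hS]
    exact abs_eq_zero.1 (le_antisymm this (abs_nonneg _))
  have h4 : ∀ u, 1 ≤ u → S u 0 = 0 := by
    intro w hw
    have := BB_right g hw A A
    rw [zero_mul] at this
    rw [hS]
    exact abs_eq_zero.1 (le_antisymm this (abs_nonneg _))
  have h5 : ∀ u w, u < t → w < t → |S (u + 1) (w + 1)| ≤ η * (x (u + 1) * x (w + 1)) := by
    intro u w hu hw
    have e1 := BB_all2 hk hΛσ t u (w + 1) (by omega) A A
    have e2 := hη (u + 1) (w + 1) (by omega) (by omega) (by omega) (by omega)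
    have e3 : √(n2 (u + 1) A) * √(n2 (w + 1) A) =
        √ρ ^ (u + 1 + (w + 1)) * (x (u + 1) * x (w + 1)) := by
      rw [hx, pow_add]
      have : √ρ ^ (u + 1) ≠ 0 := (pow_pos hs _).ne'
      have : √ρ ^ (w + 1) ≠ 0 := (pow_pos hs _).ne'
      field_simp
    rw [hS]
    calc _ ≤ _ := e1
      _ = (Nuw2 K Λ σ t (u + 1) (w + 1) * √ρ ^ (u + 1 + (w + 1))) *
          (x (u + 1) * x (w + 1)) := by
          rw [e3]
          ring
      _ ≤ η * (x (u + 1) * x (w + 1)) :=
          mul_le_mul_of_nonneg_right e2 (mul_nonneg (hx0 _) (hx0 _))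
  have h6 : ∑ u ∈ range (t + 1), ∑ w ∈ range (t + 1), S u w =
      A ∅ ^ 2 + ∑ u ∈ range t, ∑ w ∈ range t, S (u + 1) (w + 1) := by
    rw [Finset.sum_range_succ', Finset.sum_range_succ', h2,
      Finset.sum_eq_zero (fun w _ => h3 (w + 1) (by omega)), zero_add, add_comm]
    congr 1
    refine Finset.sum_congr rfl fun u _ => ?_
    rw [Finset.sum_range_succ', h4 (u + 1) (by omega), add_zero]
  rcases Nat.eq_zero_or_pos t with h0 | h0
  · subst h0
    rw [h1, h6]
    simp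
  have hη0 : 0 ≤ η := by
    refine le_trans ?_ (hη 1 1 le_rfl h0 le_rfl h0)
    have hK0 : 0 ≤ K := by linarith [hk.K1]
    have := hk.hΛ
    have := hk.hσ
    unfold Nuw2
    rw [if_neg one_ne_zero]
    positivity
  have h7 : |∑ u ∈ range t, ∑ w ∈ range t, S (u + 1) (w + 1)| ≤
      η * (t * ∑ u ∈ range t, n2 (u + 1) A / ρ ^ (u + 1)) := by
    have e1 : |∑ u ∈ range t, ∑ w ∈ range t, S (u + 1) (w + 1)| ≤
        η * (∑ u ∈ range t, x (u + 1)) ^ 2 := by
      refine (Finset.abs_sum_le_sum_abs _ _).trans ?_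
      rw [sq, Finset.sum_mul_sum, Finset.mul_sum]
      refine Finset.sum_le_sum fun u hu => ?_
      refine (Finset.abs_sum_le_sum_abs _ _).trans ?_
      rw [Finset.mul_sum]
      exact Finset.sum_le_sum fun w hw => h5 u w (Finset.mem_range.1 hu) (Finset.mem_range.1 hw)
    refine e1.trans (mul_le_mul_of_nonneg_left ?_ hη0)
    have e2 := sq_sum_le_card_mul_sum_sq (s := range t) (f := fun u => x (u + 1))
    rw [Finset.card_range] at e2
    refine e2.trans (le_of_eq ?_)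
    congr 1
    refine Finset.sum_congr rfl fun u _ => ?_
    rw [hx]
    simp only
    rw [div_pow, Real.sq_sqrt (n2_nonneg _ _), ← pow_mul, mul_comm (u + 1) 2, pow_mul,
      Real.sq_sqrt hρ.le]
  rw [h1, h6, add_sub_cancel_left]
  exact h7

/-- **The moment matrices of the product ansatz.** -/
theorem psd_main2 (hk : KK g K Λ σ) (hY : PM g Y ρ t B) (hg0 : ∀ x, g x x = 0)
    (hΛσ : Λ ≤ σ ^ 2) (hρ : 0 < ρ) (hB : 0 ≤ B) (η : ℝ)
    (hη : ∀ u w : ℕ, 1 ≤ u → u ≤ t → 1 ≤ w → w ≤ t → Nuw2 K Λ σ t u w * √ρ ^ (u + w) ≤ η)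
    (hη0 : 0 ≤ η) (f : Finset X → ℝ) (hf : ∀ S, t < S.card → f S = 0) :
    |∑ S, ∑ T, f S * f T * Y (S ∪ T) - MM Y f| ≤ η * t * (2 ^ t * B) * MM Y f := by
  have hK := hk.K1
  have hK0 : 0 ≤ K := by linarith
  obtain ⟨F, hF⟩ : ∃ F : Finset X → ℝ, F = fun S => f S * Y S := ⟨_, rfl⟩
  obtain ⟨a, ha⟩ : ∃ a : Finset X → ℝ, a = up F := ⟨_, rfl⟩
  obtain ⟨w, hw⟩ : ∃ w : Finset X → ℝ, w = fun Z => (Y Z)⁻¹ := ⟨_, rfl⟩
  have hw0 : ∀ Z, 0 ≤ w Z := fun Z => by
    rw [hw]
    exact inv_nonneg.2 (hY.nonneg Z)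
  have hac : ∀ J, t < J.card → a J = 0 := by
    intro J hJ
    rw [ha, hF]
    exact up_card f hf Y J hJ
  have hap : ∀ J, a J ≠ 0 → 0 < Y J := by
    intro J hJ
    rw [ha, hF] at hJ
    exact up_pos hY f J hJ
  rw [form_parts hY hg0 f F hF]
  have hMM : MM Y f = ∑ Z, w Z * a Z ^ 2 := by
    unfold MM
    rw [hw, ha, hF]
  rw [hMM]
  obtain ⟨M, hM⟩ : ∃ M : ℝ, M = ∑ Z, w Z * a Z ^ 2 := ⟨_, rfl⟩
  rw [← hM]
  have h1 : |∑ Z, (Y Z)⁻¹ * ∑ S, ∑ T, hR F Z S * hR F Z T * gg g S T - M| ≤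
      η * t * ∑ Z, w Z * ∑ u ∈ range t, n2 (u + 1) (hR a Z) / ρ ^ (u + 1) := by
    rw [hM, ← Finset.sum_sub_distrib, Finset.mul_sum]
    refine (Finset.abs_sum_le_sum_abs _ _).trans (Finset.sum_le_sum fun Z _ => ?_)
    rw [form_up, up_hR, ← ha]
    have e1 : w Z = (Y Z)⁻¹ := by rw [hw]
    rw [← e1, ← mul_sub, abs_mul, abs_of_nonneg (hw0 Z)]
    have e2 := form_link2 hk hΛσ hρ t η hη (hR a Z) (fun J hJ => by
      unfold hR
      split_ifs with h
      · exact hac _ (lt_of_lt_of_le hJ (Finset.card_le_card Finset.subset_union_right))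
      · rfl)
    have e3 : hR a Z ∅ = a Z := by
      unfold hR
      rw [if_pos (Finset.disjoint_empty_right Z), Finset.union_empty]
    rw [e3] at e2
    refine (mul_le_mul_of_nonneg_left e2 (hw0 Z)).trans (le_of_eq ?_)
    ring
  refine h1.trans ?_
  have h2 : ∑ Z, w Z * ∑ u ∈ range t, n2 (u + 1) (hR a Z) / ρ ^ (u + 1) ≤
      2 ^ t * B * M := by
    have e1 : ∀ Z : Finset X, w Z * ∑ u ∈ range t, n2 (u + 1) (hR a Z) / ρ ^ (u + 1) ≤
        ∑ J : Finset X, if Disjoint Z J then B * (w (Z ∪ J) * a (Z ∪ J) ^ 2) else 0 := by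
      intro Z
      have e2 : ∑ u ∈ range t, n2 (u + 1) (hR a Z) / ρ ^ (u + 1) ≤
          ∑ J, hR a Z J ^ 2 / ρ ^ J.card := by
        rw [sum_card t (fun J => hR a Z J ^ 2 / ρ ^ J.card)]
        · rw [Finset.sum_range_succ']
          have e3 : ∑ u ∈ range t, n2 (u + 1) (hR a Z) / ρ ^ (u + 1) =
              ∑ u ∈ range t, ∑ J ∈ powersetCard (u + 1) univ, hR a Z J ^ 2 / ρ ^ J.card := by
            refine Finset.sum_congr rfl fun u _ => ?_
            unfold n2
            rw [Finset.sum_div]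
            refine Finset.sum_congr rfl fun J hJ => ?_
            rw [(Finset.mem_powersetCard.1 hJ).2]
          rw [e3]
          have e4 : 0 ≤ ∑ J ∈ powersetCard 0 (univ : Finset X), hR a Z J ^ 2 / ρ ^ J.card :=
            Finset.sum_nonneg fun J _ => div_nonneg (sq_nonneg _) (pow_nonneg hρ.le _)
          linarith
        · intro J hJ
          have : hR a Z J = 0 := by
            unfold hR
            split_ifs with h
            · exact hac _ (lt_of_lt_of_le hJ (Finset.card_le_card Finset.subset_union_right))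
            · rfl
          rw [this]
          simp
      refine (mul_le_mul_of_nonneg_left e2 (hw0 Z)).trans ?_
      rw [Finset.mul_sum]
      refine Finset.sum_le_sum fun J _ => ?_
      unfold hR
      by_cases hd : Disjoint Z J
      · rw [if_pos hd, if_pos hd]
        by_cases h0 : a (Z ∪ J) = 0
        · rw [h0]
          simp
        · have h3 := hap _ h0
          have h4 : (Z ∪ J).card ≤ t := by
            by_contra h5
            exact h0 (hac _ (by omega))
          have h7 : w Z / ρ ^ J.card ≤ B * w (Z ∪ J) := by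
            rw [hw]
            exact hY.inv_le hρ hd h4 h3
          calc w Z * (a (Z ∪ J) ^ 2 / ρ ^ J.card) = w Z / ρ ^ J.card * a (Z ∪ J) ^ 2 := by ring
            _ ≤ B * w (Z ∪ J) * a (Z ∪ J) ^ 2 :=
                mul_le_mul_of_nonneg_right h7 (sq_nonneg _)
            _ = _ := by ring
      · rw [if_neg hd, if_neg hd]
        simp
    refine (Finset.sum_le_sum fun Z _ => e1 Z).trans ?_
    have e2 := sum_disj t (fun S => B * (w S * a S ^ 2))
      (fun S => mul_nonneg hB (mul_nonneg (hw0 S) (sq_nonneg _)))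
      (fun S hS => by
        rw [hac S hS]
        simp)
    refine e2.trans (le_of_eq ?_)
    rw [← Finset.mul_sum, ← hM]
    ring
  calc η * t * ∑ Z, w Z * ∑ u ∈ range t, n2 (u + 1) (hR a Z) / ρ ^ (u + 1)
      ≤ η * t * (2 ^ t * B * M) :=
        mul_le_mul_of_nonneg_left h2 (mul_nonneg hη0 (Nat.cast_nonneg _))
    _ = η * t * (2 ^ t * B) * M := by ring

end

end Pool.Agent.H2xSX
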