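import Mathlib
import Pool.Agent.H2xSX.Cond2
import Pool.Agent.Y570.LS.Cube

/-!
H2xSX (helper2, MP_0430e4_lc): the parameters and the kernel.
-/

set_option autoImplicit false
set_option linter.unusedSectionVars false

namespace Pool.Agent.H2xSX

open Finset Pool.Agent.Y570 Pool.Agent.Y570.LS Pool.Agent.TH41.BL

/-- the parameters -/
lemma sml2_of {K κ V E Λ : ℝ} {s t r : ℕ} (hK : 1 ≤ K) (hKr : K ^ (r ^ 2) ≤ 2) (hsr : s ≤ r)
    (htr : t ≤ r) (ht : 1 ≤ t) (hV : 0 < V) (hE : 1 ≤ E) (hκ : 1 ≤ κ) (hΛ0 : 0 ≤ Λ)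
    (hΛ : Λ ≤ κ * V) (hs : s * (3 * (E / V)) ≤ 1 / 2)
    (hA : ((2 * t + 1) ^ t * (t : ℝ) ^ t * (κ ^ t * (Λ / V * E ^ t))) * t * (2 ^ t * 4) ≤ 1 / 2)
    (hB : 3 * (2 * (2 * (t + 1) * ((4 * κ * E) ^ t * (2 ^ t * 4)))) *
      ((2 * t) ^ (2 * t) * (2 * (s * (3 * (E / V))))) ≤ 1) :
    Sml2 K Λ √(κ * V) (E / V) ((2 * t + 1) ^ t * (t : ℝ) ^ t * (κ ^ t * (Λ / V * E ^ t)))
      (4 * κ * E) s t := by
  have hK0 : 0 < K := by linarith
  have hκV : 0 ≤ κ * V := by positivity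
  have hEp : 0 < E := by linarith
  have hκp : 0 < κ := by linarith
  have k1 : K ^ (s ^ 2) ≤ 2 :=
    (pow_le_pow_right₀ hK (Nat.pow_le_pow_left hsr 2)).trans hKr
  have k2 : K ^ (t ^ 2) ≤ 2 :=
    (pow_le_pow_right₀ hK (Nat.pow_le_pow_left htr 2)).trans hKr
  have k3 : (K ^ s) ^ t ≤ 2 := by
    rw [← pow_mul]
    refine (pow_le_pow_right₀ hK ?_).trans hKr
    rw [pow_two]
    exact Nat.mul_le_mul hsr htr
  have k4 : K ^ t ≤ 2 := by
    refine (pow_le_pow_right₀ hK ?_).trans k2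
    nlinarith
  have k5 : K ^ s ≤ 2 := by
    refine (pow_le_pow_right₀ hK ?_).trans k1
    nlinarith
  have ht1 : (1 : ℝ) ≤ t := by exact_mod_cast ht
  have h2t : (1 : ℝ) ≤ 2 * t + 1 := by linarith
  refine ⟨?_, by positivity, ?_, ?_, by positivity, ?_, ?_, hs, ?_⟩
  · rw [Real.sq_sqrt hκV]
    exact hΛ
  · nlinarith
  · intro u w hu hut hw hwt
    unfold Nuw2
    rw [if_neg (by omega)]
    obtain ⟨k, hk⟩ : ∃ k : ℕ, k = (u - 1) + (w - 1) := ⟨_, rfl⟩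
    have hk2 : u + w = k + 2 := by omega
    have hk3 : k ≤ 2 * (t - 1) := by omega
    rw [← hk, hk2, pow_add, Real.sq_sqrt (by positivity)]
    have e1 : √(κ * V) ^ k * √(E / V) ^ k = √(κ * E) ^ k := by
      rw [← mul_pow, ← Real.sqrt_mul hκV]
      congr 2
      field_simp
    have h1 : 1 ≤ √(κ * E) := by
      rw [Real.one_le_sqrt]
      exact one_le_mul_of_one_le_of_one_le hκ hE
    have e2 : √(κ * E) ^ k ≤ (κ * E) ^ (t - 1) := by
      calc √(κ * E) ^ k ≤ √(κ * E) ^ (2 * (t - 1)) := pow_le_pow_right₀ h1 hk3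
        _ = (κ * E) ^ (t - 1) := by rw [pow_mul, Real.sq_sqrt (by positivity)]
    have e3 : (K ^ t * t + 1) ^ u ≤ (2 * (t : ℝ) + 1) ^ t := by
      have : K ^ t * t + 1 ≤ 2 * (t : ℝ) + 1 := by
        have := mul_le_mul_of_nonneg_right k4 (by linarith : (0 : ℝ) ≤ t)
        linarith
      exact (pow_le_pow_left₀ (by positivity) this u).trans (pow_le_pow_right₀ h2t hut)
    have e3' : (u : ℝ) ^ w ≤ (t : ℝ) ^ t := by
      have : (u : ℝ) ≤ t := by exact_mod_cast hut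
      exact (pow_le_pow_left₀ (by positivity) this w).trans (pow_le_pow_right₀ ht1 hwt)
    have e4 : κ ^ (t - 1) ≤ κ ^ t := pow_le_pow_right₀ hκ (by omega)
    have e5 : E ^ t = E ^ (t - 1) * E := by
      rw [← pow_succ]
      congr 1
      omega
    calc (K ^ t * t + 1) ^ u * (u : ℝ) ^ w * Λ * √(κ * V) ^ k * (√(E / V) ^ k * (E / V))
        = (K ^ t * t + 1) ^ u * (u : ℝ) ^ w * (Λ * (E / V)) * (√(κ * V) ^ k * √(E / V) ^ k) := by
          ring
      _ ≤ (2 * (t : ℝ) + 1) ^ t * (t : ℝ) ^ t * (Λ * (E / V)) * (κ * E) ^ (t - 1) := by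
          rw [e1]
          gcongr
      _ = (2 * (t : ℝ) + 1) ^ t * (t : ℝ) ^ t * (κ ^ (t - 1) * (Λ / V * E ^ t)) := by
          rw [mul_pow, e5]
          ring
      _ ≤ (2 * (t : ℝ) + 1) ^ t * (t : ℝ) ^ t * (κ ^ t * (Λ / V * E ^ t)) := by
          gcongr
  · refine le_trans ?_ hA
    refine mul_le_mul_of_nonneg_left ?_ (by positivity)
    refine mul_le_mul_of_nonneg_left ?_ (by positivity)
    calc K ^ (t ^ 2) * (K ^ s) ^ t ≤ 2 * 2 := mul_le_mul k2 k3 (by positivity) (by norm_num)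
      _ = 4 := by norm_num
  · have e1 : (K ^ s * √(κ * V)) ^ 2 * (E / V) = (K ^ s) ^ 2 * (κ * E) := by
      rw [mul_pow, Real.sq_sqrt hκV]
      field_simp
    rw [e1]
    have e2 : (K ^ s) ^ 2 ≤ 2 ^ 2 := pow_le_pow_left₀ (by positivity) k5 2
    have e3 : 0 ≤ κ * E := by positivity
    nlinarith
  · refine le_trans ?_ hB
    refine mul_le_mul_of_nonneg_right ?_ (by positivity)
    refine mul_le_mul_of_nonneg_left ?_ (by norm_num)
    have b1 : K ^ (t ^ 2) * (K ^ s) ^ t ≤ 4 := by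
      calc K ^ (t ^ 2) * (K ^ s) ^ t ≤ 2 * 2 := mul_le_mul k2 k3 (by positivity) (by norm_num)
        _ = 4 := by norm_num
    gcongr

/-- **The kernel on the cube.** -/
theorem cube_kernel2 (hc : S7_chr) (n d m j₀ : ℕ) (hd : d ≤ m) (hm : 2 * m ≤ n)
    (hj : 2 * j₀ ≤ n) (q : ℝ)
    (hq : 4 * ((m : ℝ) * ((n : ℝ) - m + 1)) ≤ q * ((n : ℝ) + 2 - 2 * j₀) ^ 2) (hq1 : q < 1)
    (η₀ : ℝ) (hη0 : 0 ≤ η₀) (hη1 : η₀ ≤ 1)
    (hC : vol n d / (1 - q) ^ 2 ≤ η₀ ^ 2 * n.choose m) (Λ σ : ℝ) (hΛ : 0 < Λ) (hσ : 0 ≤ σ)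
    (h1 : vol n d / (1 - q) ^ 2 ≤ σ ^ 2)
    (h2 : 2 ^ n * (vol n d / (1 - q) ^ 2) ≤ n.choose j₀ * Λ ^ 2) :
    ∃ g : (Fin n → Bool) → (Fin n → Bool) → ℝ, KK g (1 + η₀) Λ σ ∧ (∀ x y, g x y = g y x) ∧
      ∀ x y, hammingDist x y < d → g x y = 0 := by
  obtain ⟨e, s, he1, he2, he3, he4, he5⟩ := radial n d m j₀ hd hm hj q hq hq1
  have hcm : (0 : ℝ) < n.choose m := by
    exact_mod_cast Nat.choose_pos (by omega)
  have hcj : (0 : ℝ) < n.choose j₀ := by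
    exact_mod_cast Nat.choose_pos (by omega)
  have hlow : ∀ w ≤ n, -1 ≤ e w ∧ e w ≤ η₀ := by
    intro w hw
    by_cases hwd : w < d
    · rw [he1 w hwd]
      constructor
      · exact le_rfl
      · linarith
    · have h3 := (he2 w hw (not_lt.1 hwd)).trans hC
      have h4 : e w ^ 2 ≤ η₀ ^ 2 := by
        have h5 : (n.choose m : ℝ) * e w ^ 2 ≤ n.choose m * η₀ ^ 2 := by linarith
        exact le_of_mul_le_mul_left h5 hcm
      have h5 := abs_le.1 (abs_le_of_sq_le_sq h4 hη0)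
      constructor
      · linarith [h5.1]
      · exact h5.2
  have hrow : ∀ a : Fin n → Bool, ∑ c, (1 + e (hammingDist a c) - 1) ^ 2 ≤ σ ^ 2 := by
    intro a
    have h3 := sum_dist a fun w => (1 + e w - 1) ^ 2
    rw [h3]
    refine le_trans (le_of_eq ?_) (he3.trans h1)
    unfold ipr
    exact Finset.sum_congr rfl fun w _ => by ring
  refine ⟨fun x y => 1 + e (hammingDist x y), ⟨by linarith, hΛ.le, hσ, fun x y => ?_,
    fun x y => ?_, hrow, fun c => ?_, fun h => ?_⟩, fun x y => ?_, fun x y hxy => ?_⟩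
  · have := (hlow _ (PK9f.hd_le x y)).1
    linarith
  · have := (hlow _ (PK9f.hd_le x y)).2
    linarith
  · refine le_trans (le_of_eq ?_) (hrow c)
    refine Finset.sum_congr rfl fun a _ => ?_
    rw [hammingDist_comm]
  · have h3 := spec_radial hc e s hΛ (fun j hj => ?_) he5 h
    · refine le_trans (le_of_eq ?_) h3
      refine Finset.sum_congr rfl fun a _ => ?_
      congr 1
      exact Finset.sum_congr rfl fun c _ => by ring
    · have h4 := (he4 j hj).trans h2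
      exact le_of_mul_le_mul_left h4 hcj
  · change 1 + e (hammingDist x y) = 1 + e (hammingDist y x)
    rw [hammingDist_comm]
  · change 1 + e (hammingDist x y) = 0
    rw [he1 _ hxy]
    ring

end Pool.Agent.H2xSX
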