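import Mathlib
import Pool.Agent.H2xSX.Param2
import Pool.Agent.Y570.LS.Asym

/-!
H2xSX (helper2, MP_0430e4_lc): the lower bound for the sum-of-squares bounds of exponential level. The
proof follows `Y570.LS.Asym`.
-/

set_option autoImplicit false
set_option linter.unusedSectionVars false

open Filter Topology

namespace Pool.Agent.H2xSX

open Pool.Agent.Y570 Pool.Agent.Y570.LS Pool.Agent.TH41.BL

/-- **The lower bound.** -/
theorem lower2 (hc : S7_chr) {δ γ : ℝ} (h0 : 0 < δ) (h1 : δ < 1 / 2) (hγ0 : 0 ≤ γ)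
    (hγ : 2 * γ < Real.binEntropy (1 / 2 - √(δ * (1 - δ))) + Real.binEntropy δ - Real.log 2) :
    ∃ c : ℝ, 0 < c ∧ ∃ n₀ : ℕ, ∀ n ≥ n₀, ∀ s t : ℕ, 1 ≤ t → (s : ℝ) ≤ Real.exp (c * n) →
      (t : ℝ) * Real.log n ≤ c * n → ∃ y, PC s t n ⌈δ * n⌉₊ y ∧
        ∑ x, y {x} = 2 ^ n * Real.exp (γ * n / t - n * Real.binEntropy δ) := by
  obtain ⟨β, β', μ, q, hβ'0, hβ', hβ1, hδμ, hμ, hq0, hq1, hqq, hgain⟩ := params h0 h1 hγ
  obtain ⟨κ, hκ⟩ : ∃ κ : ℝ, κ = 1 / (1 - q) ^ 2 := ⟨_, rfl⟩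
  have hq2 : 0 < 1 - q := by linarith
  have hκ1 : 1 ≤ κ := by
    rw [hκ, one_le_div (by positivity)]
    exact pow_le_one₀ hq2.le (by linarith)
  have hκ0 : 0 < κ := by linarith
  obtain ⟨hd, hhd⟩ : ∃ hd : ℝ, hd = Real.binEntropy δ := ⟨_, rfl⟩
  obtain ⟨hb, hhb⟩ : ∃ hb : ℝ, hb = Real.binEntropy β' := ⟨_, rfl⟩
  obtain ⟨hm, hhm⟩ : ∃ hm : ℝ, hm = Real.binEntropy μ := ⟨_, rfl⟩
  rw [← hhd, ← hhb] at hgain
  rw [← hhd]
  have hl2 : 0 < Real.log 2 := Real.log_pos (by norm_num)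
  have hb2 : hb ≤ Real.log 2 := by
    rw [hhb]
    exact Real.binEntropy_le_log_two
  obtain ⟨θ, hθ⟩ : ∃ θ : ℝ, θ = (hd + hb - Real.log 2) / 2 - γ := ⟨_, rfl⟩
  have hθ0 : 0 < θ := by linarith
  have hdm : hd < hm := by
    rw [hhd, hhm]
    refine Real.binEntropy_strictMonoOn ⟨h0.le, ?_⟩ ⟨by linarith, ?_⟩ hδμ
    · norm_num
      linarith
    · norm_num
      linarith
  obtain ⟨ξ, hξ⟩ : ∃ ξ : ℝ, ξ = hm - hd := ⟨_, rfl⟩
  have hξ0 : 0 < ξ := by linarith
  have hlκ : 0 ≤ Real.log (8 * κ) := Real.log_nonneg (by linarith)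
  obtain ⟨A, hAd⟩ : ∃ A : ℝ, A = Real.log (8 * κ) + 8 := ⟨_, rfl⟩
  have hA0 : 0 < A := by linarith
  obtain ⟨c, hcd⟩ : ∃ c : ℝ, c = min (min (ξ / 16) (θ / 4)) (min 1 (θ / (4 * A))) := ⟨_, rfl⟩
  have hc0 : 0 < c := by
    rw [hcd]
    exact lt_min (lt_min (by linarith) (by linarith)) (lt_min one_pos (by positivity))
  have hcξ : c ≤ ξ / 16 := by rw [hcd]; exact (min_le_left _ _).trans (min_le_left _ _)
  have hcθ : c ≤ θ / 4 := by rw [hcd]; exact (min_le_left _ _).trans (min_le_right _ _)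
  have hc1 : c ≤ 1 := by rw [hcd]; exact (min_le_right _ _).trans (min_le_left _ _)
  have hcA : c ≤ θ / (4 * A) := by rw [hcd]; exact (min_le_right _ _).trans (min_le_right _ _)
  have hε : 0 < q * (1 - 2 * β) ^ 2 - 4 * (μ * (1 - μ)) := by linarith
  refine ⟨c, hc0, ?_⟩
  have hN : ∀ C : ℝ, ∀ᶠ n : ℕ in atTop, C ≤ (n : ℝ) := fun C =>
    tendsto_natCast_atTop_atTop.eventually_ge_atTop C
  have hall := ((((hN 3).and (hN (2 / (1 - 2 * μ)))).and
    ((hN (8 / (q * (1 - 2 * β) ^ 2 - 4 * (μ * (1 - μ))))).and (hN (1 / (β - β'))))).and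
    (((ev1 (2 * κ) (3 * ξ / 8) (by linarith) (by linarith)).and (ev1 1 (hd + hb - Real.log 2)
      one_pos (by linarith))).and (((ev1 (288 * κ) (θ / 2) (by positivity) (by linarith))).and
      (ev1 1 (ξ / 16) one_pos (by linarith)))))
  obtain ⟨n₀, hn₀⟩ := eventually_atTop.1 hall
  refine ⟨n₀, fun n hn s t ht hsc htc => ?_⟩
  obtain ⟨⟨⟨E1, E2⟩, E3, E4⟩, ⟨E5, E6⟩, E7, E8⟩ := hn₀ n hn
  have hn0 : (0 : ℝ) < n := by linarith
  have hμ0 : 0 < μ := by linarith
  have hβ0 : 0 < β := by linarith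
  have hμ3 : 0 < 1 - μ := by linarith
  -- the integers
  obtain ⟨d, hdd⟩ : ∃ d : ℕ, d = ⌈δ * n⌉₊ := ⟨_, rfl⟩
  obtain ⟨m, hmd⟩ : ∃ m : ℕ, m = ⌈μ * n⌉₊ := ⟨_, rfl⟩
  obtain ⟨j₀, hjd⟩ : ∃ j₀ : ℕ, j₀ = ⌊β * n⌋₊ := ⟨_, rfl⟩
  have hd1 : 1 ≤ d := by
    rw [hdd]
    exact Nat.one_le_iff_ne_zero.2 (Nat.ceil_pos.2 (by positivity)).ne'
  have hdm' : d ≤ m := by
    rw [hdd, hmd]
    exact Nat.ceil_mono (mul_le_mul_of_nonneg_right hδμ.le hn0.le)
  have hm1 : (m : ℝ) ≤ μ * n + 1 := by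
    rw [hmd]
    exact (Nat.ceil_lt_add_one (by positivity)).le
  have hm2 : μ * n ≤ m := by
    rw [hmd]
    exact Nat.le_ceil _
  have hj1 : (j₀ : ℝ) ≤ β * n := by
    rw [hjd]
    exact Nat.floor_le (by positivity)
  have hj2 : β * n - 1 ≤ j₀ := by
    rw [hjd]
    exact (Nat.sub_one_lt_floor _).le
  have E2' : 2 * (μ * n + 1) ≤ n := by
    rw [div_le_iff₀ (by linarith)] at E2
    linarith
  have E4' : β' * n ≤ β * n - 1 := by
    rw [div_le_iff₀ (by linarith)] at E4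
    linarith
  have hmn' : (2 : ℝ) * m ≤ n := by linarith
  have hmn : 2 * m ≤ n := by exact_mod_cast hmn'
  have hjn' : (2 : ℝ) * j₀ ≤ n := by
    have b1 : β * n ≤ 1 / 2 * n := mul_le_mul_of_nonneg_right hβ1.le hn0.le
    linarith
  have hjn : 2 * j₀ ≤ n := by exact_mod_cast hjn'
  have hβn : β' * n ≤ j₀ := by linarith
  have hj01 : 1 ≤ j₀ := by
    have : (0 : ℝ) < j₀ := lt_of_lt_of_le (by positivity) hβn
    exact_mod_cast this
  have hj0n : j₀ < n := by omega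
  have hm0n : m < n := by omega
  have hqn : 4 * ((m : ℝ) * ((n : ℝ) - m + 1)) ≤ q * ((n : ℝ) + 2 - 2 * j₀) ^ 2 := by
    have a1 : (m : ℝ) * ((n : ℝ) - m + 1) ≤ (μ * n + 1) * ((1 - μ) * n + 1) := by
      have a3 : (n : ℝ) - m + 1 ≤ (1 - μ) * n + 1 := by linarith
      have a4 : (0 : ℝ) ≤ (n : ℝ) - m + 1 := by linarith
      exact mul_le_mul hm1 a3 a4 (by positivity)
    have a2 : ((1 - 2 * β) * n) ^ 2 ≤ ((n : ℝ) + 2 - 2 * j₀) ^ 2 := by
      refine pow_le_pow_left₀ ?_ ?_ 2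
      · exact mul_nonneg (by linarith) hn0.le
      · linarith
    have a5 : 4 * ((μ * n + 1) * ((1 - μ) * n + 1)) ≤ q * ((1 - 2 * β) * n) ^ 2 := by
      have a6 : 8 ≤ (q * (1 - 2 * β) ^ 2 - 4 * (μ * (1 - μ))) * n := by
        rwa [div_le_iff₀' hε] at E3
      have a7 : 8 * n ≤ (q * (1 - 2 * β) ^ 2 - 4 * (μ * (1 - μ))) * n * n :=
        mul_le_mul_of_nonneg_right a6 hn0.le
      have a8 : 4 * ((μ * n + 1) * ((1 - μ) * n + 1)) = 4 * (μ * (1 - μ)) * n * n + 4 * n + 4 := by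
        ring
      have a10 : q * ((1 - 2 * β) * n) ^ 2 = q * (1 - 2 * β) ^ 2 * n * n := by ring
      have a11 : (q * (1 - 2 * β) ^ 2 - 4 * (μ * (1 - μ))) * n * n =
        q * (1 - 2 * β) ^ 2 * n * n - 4 * (μ * (1 - μ)) * n * n := by ring
      rw [a8, a10]
      linarith
    have a9 := mul_le_mul_of_nonneg_left a2 hq0.le
    linarith
  -- the volumes
  obtain ⟨V, hV⟩ : ∃ V : ℝ, V = Real.exp (n * hd) := ⟨_, rfl⟩
  have hV0 : 0 < V := by
    rw [hV]
    exact Real.exp_pos _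
  have hvol : vol n d ≤ V := by
    rw [hV, hhd]
    refine vol_le h0 h1.le n d (by omega) fun w hw => ?_
    rw [hdd, Nat.lt_ceil] at hw
    linarith
  have hvol0 : 0 ≤ vol n d := Finset.sum_nonneg fun w _ => Nat.cast_nonneg _
  have hcm : Real.exp (n * hm) ≤ (n + 1) * (n.choose m : ℝ) := by
    refine le_trans (Real.exp_le_exp.2 ?_) (choose_ge (by omega) hm0n)
    refine mul_le_mul_of_nonneg_left ?_ hn0.le
    rw [hhm]
    refine binEntropy_mono (by linarith) ?_ ?_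
    · rw [le_div_iff₀ hn0]
      exact hm2
    · rw [div_le_iff₀ hn0]
      linarith
  have hcj : Real.exp (n * hb) ≤ (n + 1) * (n.choose j₀ : ℝ) := by
    refine le_trans (Real.exp_le_exp.2 ?_) (choose_ge hj01 hj0n)
    refine mul_le_mul_of_nonneg_left ?_ hn0.le
    rw [hhb]
    refine binEntropy_mono hβ'0.le ?_ ?_
    · rw [le_div_iff₀ hn0]
      exact hβn
    · rw [div_le_iff₀ hn0]
      linarith
  have hn1 : (0 : ℝ) < n + 1 := by linarith
  have hκv : vol n d / (1 - q) ^ 2 ≤ κ * V := by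
    rw [hκ, div_mul_eq_mul_div, one_mul]
    exact div_le_div_of_nonneg_right hvol (by positivity)
  obtain ⟨η₀, hη₀⟩ : ∃ η₀ : ℝ, η₀ = √(κ * (n + 1)) * Real.exp (-(n * ξ) / 2) := ⟨_, rfl⟩
  have hη00 : 0 ≤ η₀ := by
    rw [hη₀]
    exact mul_nonneg (Real.sqrt_nonneg _) (Real.exp_pos _).le
  have hη02 : η₀ ^ 2 = κ * (n + 1) * Real.exp (-(n * ξ)) := by
    rw [hη₀, mul_pow, Real.sq_sqrt (by positivity), ← Real.exp_nat_mul]
    congr 2
    push_cast
    ring
  have hC : vol n d / (1 - q) ^ 2 ≤ η₀ ^ 2 * n.choose m := by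
    refine hκv.trans ?_
    rw [hη02]
    calc κ * V = κ * (Real.exp (-(n * ξ)) * Real.exp (n * hm)) := by
          rw [hV, ← Real.exp_add, hξ]
          congr 2
          ring
      _ ≤ κ * (Real.exp (-(n * ξ)) * ((n + 1) * (n.choose m : ℝ))) := by
          refine mul_le_mul_of_nonneg_left ?_ hκ0.le
          exact mul_le_mul_of_nonneg_left hcm (Real.exp_pos _).le
      _ = _ := by ring
  obtain ⟨Λ, hΛ⟩ : ∃ Λ : ℝ, Λ = √(κ * (n + 1)) * Real.exp (n * (Real.log 2 + hd - hb) / 2) :=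
    ⟨_, rfl⟩
  have hΛ0 : 0 < Λ := by
    rw [hΛ]
    have : 0 < √(κ * (n + 1)) := Real.sqrt_pos.2 (by positivity)
    have := Real.exp_pos (n * (Real.log 2 + hd - hb) / 2)
    positivity
  have hΛ2 : Λ ^ 2 = κ * (n + 1) * Real.exp (n * (Real.log 2 + hd - hb)) := by
    rw [hΛ, mul_pow, Real.sq_sqrt (by positivity), ← Real.exp_nat_mul]
    congr 2
    push_cast
    ring
  have h2n : (2 : ℝ) ^ n = Real.exp (n * Real.log 2) := by
    rw [mul_comm, Real.exp_mul, Real.exp_log (by norm_num), Real.rpow_natCast]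
  have hspec : 2 ^ n * (vol n d / (1 - q) ^ 2) ≤ n.choose j₀ * Λ ^ 2 := by
    calc 2 ^ n * (vol n d / (1 - q) ^ 2) ≤ 2 ^ n * (κ * V) :=
          mul_le_mul_of_nonneg_left hκv (by positivity)
      _ = κ * Real.exp (n * (Real.log 2 + hd - hb)) * Real.exp (n * hb) := by
          rw [h2n, hV]
          have : Real.exp (n * (Real.log 2 + hd - hb)) * Real.exp (n * hb) =
              Real.exp (n * Real.log 2) * Real.exp (n * hd) := by
            rw [← Real.exp_add, ← Real.exp_add]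
            congr 1
            ring
          rw [mul_assoc κ, this]
          ring
      _ ≤ κ * Real.exp (n * (Real.log 2 + hd - hb)) * ((n + 1) * (n.choose j₀ : ℝ)) :=
          mul_le_mul_of_nonneg_left hcj (by positivity)
      _ = n.choose j₀ * Λ ^ 2 := by
          rw [hΛ2]
          ring
  have hκV : 0 ≤ κ * V := by positivity
  have hsq1 : 1 ≤ κ * ((n : ℝ) + 1) := one_le_mul_of_one_le_of_one_le hκ1 (by linarith)
  have hsq : √(κ * (n + 1)) ≤ κ * (n + 1) :=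
    Real.sqrt_le_iff.2 ⟨by positivity, le_self_pow₀ hsq1 (by norm_num)⟩
  -- the range of the levels
  have hlog1 : 1 ≤ Real.log n := by
    rw [Real.le_log_iff_exp_le hn0]
    linarith [Real.exp_one_lt_d9]
  have ht1 : (1 : ℝ) ≤ t := by exact_mod_cast ht
  have htn : (t : ℝ) ≤ n := by
    have b1 : (t : ℝ) * 1 ≤ t * Real.log n := mul_le_mul_of_nonneg_left hlog1 (by linarith)
    have b2 : c * n ≤ 1 * n := mul_le_mul_of_nonneg_right hc1 hn0.le
    linarith
  obtain ⟨r, hr⟩ : ∃ r : ℕ, r = max s t := ⟨_, rfl⟩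
  have hsr : s ≤ r := by rw [hr]; exact le_max_left _ _
  have htr : t ≤ r := by rw [hr]; exact le_max_right _ _
  have hrξ : (r : ℝ) ≤ Real.exp (n * (ξ / 16)) := by
    rw [hr, Nat.cast_max]
    refine max_le (hsc.trans (Real.exp_le_exp.2 ?_)) ?_
    · rw [mul_comm]
      exact mul_le_mul_of_nonneg_left hcξ hn0.le
    · rw [one_mul] at E8
      linarith
  have hr2 : ((r ^ 2 : ℕ) : ℝ) * η₀ ≤ 1 / 2 := by
    have b1 : ((r ^ 2 : ℕ) : ℝ) ≤ Real.exp (n * (ξ / 8)) := by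
      push_cast
      calc (r : ℝ) ^ 2 ≤ Real.exp (n * (ξ / 16)) ^ 2 := pow_le_pow_left₀ (Nat.cast_nonneg _) hrξ 2
        _ = Real.exp (n * (ξ / 8)) := by
            rw [← Real.exp_nat_mul]
            congr 1
            push_cast
            ring
    have b2 : η₀ ≤ κ * (n + 1) * Real.exp (-(n * ξ) / 2) := by
      rw [hη₀]
      exact mul_le_mul_of_nonneg_right hsq (Real.exp_pos _).le
    calc ((r ^ 2 : ℕ) : ℝ) * η₀ ≤ Real.exp (n * (ξ / 8)) *
          (κ * (n + 1) * Real.exp (-(n * ξ) / 2)) :=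
          mul_le_mul b1 b2 hη00 (Real.exp_pos _).le
      _ = 1 / 2 * ((2 * κ * (n + 1)) * (Real.exp (n * (ξ / 8)) * Real.exp (-(n * ξ) / 2))) := by
          ring
      _ ≤ 1 / 2 * (Real.exp (n * (3 * ξ / 8)) *
          (Real.exp (n * (ξ / 8)) * Real.exp (-(n * ξ) / 2))) := by
          refine mul_le_mul_of_nonneg_left ?_ (by norm_num)
          exact mul_le_mul_of_nonneg_right E5 (by positivity)
      _ = 1 / 2 := by
          rw [← Real.exp_add, ← Real.exp_add]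
          have : (n : ℝ) * (3 * ξ / 8) + (n * (ξ / 8) + -(n * ξ) / 2) = 0 := by ring
          rw [this, Real.exp_zero, mul_one]
  have hr1 : (1 : ℝ) ≤ ((r ^ 2 : ℕ) : ℝ) := by
    have : 1 ≤ r ^ 2 := Nat.one_le_pow _ _ (by omega)
    exact_mod_cast this
  have hη01 : η₀ ≤ 1 := by nlinarith
  have hKr : (1 + η₀) ^ (r ^ 2) ≤ 2 := by
    have := one_add_pow_le hη00 (r ^ 2) hr2
    linarith
  obtain ⟨g, hg1, hg2, hg3⟩ := cube_kernel2 hc n d m j₀ hdm' hmn hjn q hqn hq1 η₀ hη00 hη01 hC Λ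
    √(κ * V) hΛ0 (Real.sqrt_nonneg _) (by rw [Real.sq_sqrt hκV]; exact hκv) hspec
  -- the smallness
  have ht0 : (0 : ℝ) < t := by exact_mod_cast ht
  obtain ⟨E, hE⟩ : ∃ E : ℝ, E = Real.exp (γ * n / t) := ⟨_, rfl⟩
  have hE1 : 1 ≤ E := by
    rw [hE]
    exact Real.one_le_exp (by positivity)
  have hEt : E ^ t = Real.exp (γ * n) := by
    rw [hE, ← Real.exp_nat_mul]
    congr 1
    field_simp
  have hΛκ : Λ ≤ κ * V := by
    refine (sq_le_sq₀ hΛ0.le hκV).1 ?_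
    rw [hΛ2]
    calc κ * (n + 1) * Real.exp (n * (Real.log 2 + hd - hb))
        ≤ κ * Real.exp (n * (hd + hb - Real.log 2)) * Real.exp (n * (Real.log 2 + hd - hb)) := by
          refine mul_le_mul_of_nonneg_right ?_ (Real.exp_pos _).le
          rw [one_mul] at E6
          exact mul_le_mul_of_nonneg_left E6 hκ0.le
      _ = κ * V ^ 2 := by
          rw [hV, mul_assoc, ← Real.exp_add, ← Real.exp_nat_mul]
          congr 2
          push_cast
          ring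
      _ ≤ κ ^ 2 * V ^ 2 := by
          refine mul_le_mul_of_nonneg_right ?_ (by positivity)
          exact le_self_pow₀ hκ1 (by norm_num)
      _ = (κ * V) ^ 2 := by ring
  -- the function of `t`
  obtain ⟨Ψ, hΨ⟩ : ∃ Ψ : ℝ, Ψ = (8 * κ) ^ t * (2 * (t : ℝ) + 1) ^ (4 * t) := ⟨_, rfl⟩
  have hΨ0 : 0 < Ψ := by rw [hΨ]; positivity
  have hΨ1 : Ψ ≤ Real.exp (n * (θ / 4)) := by
    have b1 : Ψ = Real.exp (t * (Real.log (8 * κ) + 4 * Real.log (2 * t + 1))) := by
      rw [hΨ, mul_add, Real.exp_add, mul_comm (t : ℝ) (Real.log (8 * κ)), Real.exp_mul,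
        Real.exp_log (by positivity), Real.rpow_natCast]
      congr 1
      rw [show (t : ℝ) * (4 * Real.log (2 * t + 1)) = Real.log (2 * t + 1) * ((4 * t : ℕ) : ℝ) by
        push_cast; ring, Real.exp_mul, Real.exp_log (by positivity), Real.rpow_natCast]
    rw [b1, Real.exp_le_exp]
    have b2 : Real.log (2 * t + 1) ≤ 2 * Real.log n := by
      have : 2 * Real.log n = Real.log ((n : ℝ) ^ 2) := by
        rw [Real.log_pow]
        push_cast
        ring
      rw [this]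
      refine Real.log_le_log (by positivity) ?_
      nlinarith
    have b3 : Real.log (8 * κ) ≤ Real.log (8 * κ) * Real.log n := le_mul_of_one_le_right hlκ hlog1
    calc (t : ℝ) * (Real.log (8 * κ) + 4 * Real.log (2 * t + 1))
        ≤ t * (Real.log (8 * κ) * Real.log n + 4 * (2 * Real.log n)) := by gcongr
      _ = A * (t * Real.log n) := by
          rw [hAd]
          ring
      _ ≤ A * (c * n) := mul_le_mul_of_nonneg_left htc hA0.le
      _ ≤ A * (θ / (4 * A) * n) := by gcongr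
      _ = n * (θ / 4) := by
          field_simp
  have hx1 : Λ / V * E ^ t = √(κ * (n + 1)) * Real.exp (-(n * θ)) := by
    rw [hEt, hΛ, hV, div_eq_mul_inv, ← Real.exp_neg, mul_assoc, mul_assoc, ← Real.exp_add,
      ← Real.exp_add]
    congr 2
    rw [hθ]
    ring
  have hx2 : E / V * E ^ t ≤ Real.exp (-(n * θ)) := by
    rw [hEt, hE, hV, div_eq_mul_inv, ← Real.exp_neg, ← Real.exp_add, ← Real.exp_add,
      Real.exp_le_exp]
    have b1 : γ * n / t ≤ γ * n := by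
      refine div_le_self (by positivity) ?_
      exact_mod_cast ht
    have b2 : 0 ≤ n * (Real.log 2 - hb) := mul_nonneg hn0.le (by linarith)
    have b3 : -(n * θ) = γ * n + γ * n - n * hd + n * (Real.log 2 - hb) + n * θ := by
      rw [hθ]
      ring
    have b4 : 0 < n * θ := by positivity
    linarith
  have h2t1 : (1 : ℝ) ≤ 2 * t + 1 := by linarith
  have htt : (t : ℝ) ≤ (2 * t + 1) ^ t :=
    (by linarith : (t : ℝ) ≤ 2 * t + 1).trans (le_self_pow₀ h2t1 (by omega))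
  have htt1 : (t : ℝ) + 1 ≤ (2 * t + 1) ^ t :=
    (by linarith : (t : ℝ) + 1 ≤ 2 * t + 1).trans (le_self_pow₀ h2t1 (by omega))
  have htt2 : (t : ℝ) ^ t ≤ (2 * t + 1) ^ t := pow_le_pow_left₀ (by linarith) (by linarith) t
  have htt3 : (2 * (t : ℝ)) ^ (2 * t) ≤ (2 * t + 1) ^ (2 * t) :=
    pow_le_pow_left₀ (by linarith) (by linarith) _
  have hexp0 : Real.exp (n * (θ / 4)) * Real.exp (n * (θ / 4)) * Real.exp (-(n * θ)) =
      Real.exp (-(n * (θ / 2))) := by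
    rw [← Real.exp_add, ← Real.exp_add]
    congr 1
    ring
  have hE7 : 288 * κ * ((n : ℝ) + 1) * Real.exp (-(n * (θ / 2))) ≤ 1 := by
    calc 288 * κ * ((n : ℝ) + 1) * Real.exp (-(n * (θ / 2))) ≤
          Real.exp (n * (θ / 2)) * Real.exp (-(n * (θ / 2))) :=
          mul_le_mul_of_nonneg_right E7 (Real.exp_pos _).le
      _ = 1 := by
          rw [← Real.exp_add, add_neg_cancel, Real.exp_zero]
  have hssc : (s : ℝ) ≤ Real.exp (n * (θ / 4)) := by
    refine hsc.trans (Real.exp_le_exp.2 ?_)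
    rw [mul_comm]
    exact mul_le_mul_of_nonneg_left hcθ hn0.le
  have hone : (1 : ℝ) ≤ Real.exp (n * (θ / 4)) := Real.one_le_exp (by positivity)
  have hEV : E / V ≤ E / V * E ^ t := le_mul_of_one_le_right (by positivity) (one_le_pow₀ hE1)
  have hA : ((2 * t + 1) ^ t * (t : ℝ) ^ t * (κ ^ t * (Λ / V * E ^ t))) * t * (2 ^ t * 4) ≤
      1 / 2 := by
    rw [hx1]
    have b1 : (2 * (t : ℝ) + 1) ^ t * (t : ℝ) ^ t * κ ^ t * t * 2 ^ t ≤ Ψ := by
      rw [hΨ]
      calc (2 * (t : ℝ) + 1) ^ t * (t : ℝ) ^ t * κ ^ t * t * 2 ^ t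
          ≤ (2 * (t : ℝ) + 1) ^ t * (2 * (t : ℝ) + 1) ^ t * κ ^ t * (2 * (t : ℝ) + 1) ^ t *
            2 ^ t := by gcongr
        _ = (2 * κ) ^ t * ((2 * (t : ℝ) + 1) ^ (3 * t)) := by
            rw [mul_pow, show 3 * t = t + t + t by ring, pow_add, pow_add]
            ring
        _ ≤ (8 * κ) ^ t * (2 * (t : ℝ) + 1) ^ (4 * t) := by
            refine mul_le_mul (pow_le_pow_left₀ (by positivity) (by linarith) t)
              (pow_le_pow_right₀ h2t1 (by omega)) (by positivity) (by positivity)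
    calc ((2 * (t : ℝ) + 1) ^ t * (t : ℝ) ^ t * (κ ^ t * (√(κ * (n + 1)) *
          Real.exp (-(n * θ))))) * t * (2 ^ t * 4)
        = 4 * ((2 * (t : ℝ) + 1) ^ t * (t : ℝ) ^ t * κ ^ t * t * 2 ^ t) *
          (√(κ * (n + 1)) * Real.exp (-(n * θ))) := by ring
      _ ≤ 4 * (Real.exp (n * (θ / 4)) * Real.exp (n * (θ / 4))) *
          ((κ * (n + 1)) * Real.exp (-(n * θ))) := by
          have b2 : Ψ ≤ Real.exp (n * (θ / 4)) * Real.exp (n * (θ / 4)) :=
            hΨ1.trans (le_mul_of_one_le_right (Real.exp_pos _).le hone)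
          have b3 := b1.trans b2
          gcongr
      _ = 4 * (κ * (n + 1)) * Real.exp (-(n * (θ / 2))) := by
          rw [← hexp0]
          ring
      _ ≤ 1 / 2 := by
          have b4 : 0 ≤ κ * ((n : ℝ) + 1) * Real.exp (-(n * (θ / 2))) := by positivity
          linarith
  have hs3 : s * (3 * (E / V)) ≤ 1 / 2 := by
    calc (s : ℝ) * (3 * (E / V)) ≤ Real.exp (n * (θ / 4)) * (3 * Real.exp (-(n * θ))) := by
          have b1 := hEV.trans hx2
          gcongr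
      _ ≤ 3 * (Real.exp (n * (θ / 4)) * Real.exp (n * (θ / 4)) * Real.exp (-(n * θ))) := by
          have b2 : Real.exp (n * (θ / 4)) ≤ Real.exp (n * (θ / 4)) * Real.exp (n * (θ / 4)) :=
            le_mul_of_one_le_right (Real.exp_pos _).le hone
          have b3 := mul_le_mul_of_nonneg_right b2 (Real.exp_pos (-(n * θ))).le
          linarith
      _ ≤ 1 / 2 := by
          rw [hexp0]
          have b4 : Real.exp (-(n * (θ / 2))) ≤ κ * ((n : ℝ) + 1) * Real.exp (-(n * (θ / 2))) :=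
            le_mul_of_one_le_left (Real.exp_pos _).le hsq1
          linarith
  have hB : 3 * (2 * (2 * (t + 1) * ((4 * κ * E) ^ t * (2 ^ t * 4)))) *
      ((2 * t) ^ (2 * t) * (2 * (s * (3 * (E / V))))) ≤ 1 := by
    have b1 : ((t : ℝ) + 1) * (8 * κ) ^ t * (2 * t) ^ (2 * t) ≤ Ψ := by
      rw [hΨ]
      calc ((t : ℝ) + 1) * (8 * κ) ^ t * (2 * t) ^ (2 * t) ≤
          (2 * (t : ℝ) + 1) ^ t * (8 * κ) ^ t * (2 * t + 1) ^ (2 * t) := by gcongr
        _ = (8 * κ) ^ t * (2 * (t : ℝ) + 1) ^ (3 * t) := by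
            rw [show 3 * t = t + 2 * t by ring, pow_add]
            ring
        _ ≤ (8 * κ) ^ t * (2 * (t : ℝ) + 1) ^ (4 * t) := by
            refine mul_le_mul_of_nonneg_left (pow_le_pow_right₀ h2t1 (by omega)) (by positivity)
    calc 3 * (2 * (2 * ((t : ℝ) + 1) * ((4 * κ * E) ^ t * (2 ^ t * 4)))) *
        ((2 * t) ^ (2 * t) * (2 * (s * (3 * (E / V)))))
        = 288 * (((t : ℝ) + 1) * (8 * κ) ^ t * (2 * t) ^ (2 * t)) * s * (E / V * E ^ t) := by
          rw [mul_pow (4 * κ) E t, show (8 : ℝ) * κ = (4 * κ) * 2 by ring, mul_pow (4 * κ) 2 t]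
          ring
      _ ≤ 288 * Real.exp (n * (θ / 4)) * Real.exp (n * (θ / 4)) * Real.exp (-(n * θ)) := by
          have b3 := b1.trans hΨ1
          gcongr
      _ = 288 * (Real.exp (n * (θ / 4)) * Real.exp (n * (θ / 4)) * Real.exp (-(n * θ))) := by
          ring
      _ ≤ 1 := by
          rw [hexp0]
          have b4 : Real.exp (-(n * (θ / 2))) ≤ κ * ((n : ℝ) + 1) * Real.exp (-(n * (θ / 2))) :=
            le_mul_of_one_le_left (Real.exp_pos _).le hsq1
          linarith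
  have hSml := sml2_of (K := 1 + η₀) (by linarith) hKr hsr htr ht hV0 hE1 hκ1 hΛ0.le hΛκ hs3 hA hB
  have hg0 : ∀ x, g x x = 0 := by
    intro x
    refine hg3 x x ?_
    rw [hammingDist_self]
    omega
  refine ⟨yy (E / V) g, ⟨?_, ?_, ?_⟩, ?_⟩
  · unfold yy pr
    simp
  · intro S u hu v hv huv hd'
    rw [← hdd] at hd'
    unfold yy pr
    rw [Finset.prod_eq_zero (i := (u, v)), mul_zero]
    · exact Finset.mem_offDiag.2 ⟨hu, hv, huv⟩
    · rw [hg3 u v hd', Real.sqrt_zero]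
  · intro D E' hDE f hf
    exact psd_cond2 hg1 hg2 hg0 hSml D E' hDE f hf
  · have hy : ∀ x : Fin n → Bool, yy (E / V) g {x} = E / V := by
      intro x
      unfold yy pr
      simp
    simp_rw [hy]
    rw [Finset.sum_const, Finset.card_univ, Fintype.card_fun, Fintype.card_bool, Fintype.card_fin,
      nsmul_eq_mul, Nat.cast_pow, Nat.cast_ofNat, Real.exp_sub, ← hE, ← hV]

end Pool.Agent.H2xSX
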