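import Mathlib
import Pool.Agent.H2xSX.Asym3
import Pool.Agent.Y570.LS.Fin

/-!
H2xSX (helper2, MP_0430e4_lc): the lower bound for the optimum of the hierarchy.
-/

set_option autoImplicit false
set_option linter.unusedSectionVars false

open Filter Topology

namespace Pool.Agent.H2xSX

open Pool.Agent.Y570 Pool.Agent.Y570.LS Pool.Agent.TH41.BL

/-- the lower bound for the optimum -/
theorem SO_lower2 (hc : S7_chr) {δ γ : ℝ} (h0 : 0 < δ) (h1 : δ < 1 / 2)
    (hγ : γ * Real.log 2 <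
      (Real.binEntropy (1 / 2 - √(δ * (1 - δ))) + Real.binEntropy δ - Real.log 2) / 2) :
    ∃ c : ℝ, 0 < c ∧ ∃ n₀ : ℕ, ∀ n ≥ n₀, ∀ s t : ℕ, 1 ≤ t → (s : ℝ) ≤ 2 ^ (c * n) →
      (t : ℝ) ≤ c * n / Real.log n →
        (2 : ℝ) ^ ((1 - Real.binEntropy δ / Real.log 2 + γ / t) * n) ≤ SO s t n ⌈δ * n⌉₊ := by
  have hl2 : 0 < Real.log 2 := Real.log_pos (by norm_num)
  have hg := gain_pos h0 h1
  obtain ⟨γ', hγ'⟩ : ∃ γ' : ℝ, γ' = max (γ * Real.log 2) 0 := ⟨_, rfl⟩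
  have hγ0 : 0 ≤ γ' := by
    rw [hγ']
    exact le_max_right _ _
  have hγ1 : γ * Real.log 2 ≤ γ' := by
    rw [hγ']
    exact le_max_left _ _
  have hγ2 : 2 * γ' < Real.binEntropy (1 / 2 - √(δ * (1 - δ))) + Real.binEntropy δ -
      Real.log 2 := by
    have : γ' < (Real.binEntropy (1 / 2 - √(δ * (1 - δ))) + Real.binEntropy δ -
        Real.log 2) / 2 := by
      rw [hγ']
      exact max_lt hγ (by linarith)
    linarith
  obtain ⟨c, hc0, n₀, h⟩ := lower2 hc h0 h1 hγ0 hγ2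
  refine ⟨c, hc0, max n₀ 3, fun n hn s t ht hs htc => ?_⟩
  have hn0' : n₀ ≤ n := le_trans (le_max_left _ _) hn
  have hn3 : 3 ≤ n := le_trans (le_max_right _ _) hn
  have hn3' : (3 : ℝ) ≤ n := by exact_mod_cast hn3
  have hlog : 0 < Real.log n := Real.log_pos (by linarith)
  have hn0 : (0 : ℝ) ≤ n := Nat.cast_nonneg _
  have hs' : (s : ℝ) ≤ Real.exp (c * n) := by
    refine hs.trans ?_
    rw [Real.rpow_def_of_pos (by norm_num : (0 : ℝ) < 2), Real.exp_le_exp]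
    have h2 : Real.log 2 ≤ 1 := by linarith [Real.log_two_lt_d9]
    have h3 : 0 ≤ c * n := by positivity
    nlinarith
  have ht' : (t : ℝ) * Real.log n ≤ c * n := by
    rwa [le_div_iff₀ hlog] at htc
  obtain ⟨y, hy1, hy2⟩ := h n hn0' s t ht hs' ht'
  have h3 : ∑ x, y {x} ≤ SO s t n ⌈δ * n⌉₊ := le_csSup (bdd ht) ⟨y, hy1, rfl⟩
  refine le_trans ?_ h3
  rw [hy2]
  have h2n : (2 : ℝ) ^ n = Real.exp (n * Real.log 2) := by
    rw [mul_comm, Real.exp_mul, Real.exp_log (by norm_num), Real.rpow_natCast]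
  rw [h2n, ← Real.exp_add, Real.rpow_def_of_pos (by norm_num : (0 : ℝ) < 2), Real.exp_le_exp]
  have ht0 : (0 : ℝ) < t := by exact_mod_cast ht
  have h4 : Real.log 2 * ((1 - Real.binEntropy δ / Real.log 2 + γ / t) * n) =
      n * Real.log 2 - n * Real.binEntropy δ + (γ * Real.log 2) * n / t := by
    field_simp
  rw [h4]
  have h5 : (γ * Real.log 2) * n / t ≤ γ' * n / t :=
    div_le_div_of_nonneg_right (mul_le_mul_of_nonneg_right hγ1 hn0) ht0.le
  linarith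

end Pool.Agent.H2xSX
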